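import Mathlib
import Pool.Agent.J4.H73.CP.Sharp

/-!
# All-pairs shortest paths: free concave preprocessing does not help circuits with minima

The circuits (`Pool.Agent.J4.H73.CP.Gate`, `val`) have three kinds of gates with real values:

* `free φ`: a real function of the whole input, at no cost,
* `comb c`: a linear combination of earlier gates with nonnegative real coefficients, at no cost,
* `low a b`: the minimum of two earlier gates, at cost one.

So sums, constants, and nonnegative multiples are free, and any number of free functions may be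
used. The free functions have to be concave; each of them may depend only on the weights in a set
`S` of arcs that does not contain the four arcs of two paths `s → k → t` and `s → k' → t`. For the
min-plus product `min_k (A i k + B k j)` of two matrices `A`, `B` these are for instance all concave
functions of the whole matrix `A`, all concave functions of the whole matrix `B` (so by addition all
affine functions of all entries, in particular the differences used by Fredman), and for every `k`
all concave functions of the column `k` of `A` together with the row `k` of `B`.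
The circuits need to be correct for small integral weights only.
-/

set_option autoImplicit false

namespace Pool.Agent.Results.MP_885423_lc.ConcavePreprocessing

open Finset Pool.Agent.J4.H73.CP

open Classical in
/-- (1) **The min-plus product.** Let `P` be a set of pairs `(i, j)`. A circuit which computes the
entries of the product in `P` for all matrices `A : I × K`, `B : K × J` with entries in
`{1, 2, 3, 4}` has at least `|P| (|K| - 1)` minima; so `n³ - n²` for the product of two `n × n`
matrices.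

(2) This is sharp: there is a circuit with at most `|I| |J| (|K| - 1)` minima and without
combinations, in which every free function is a sum `A i k + B k j`, which computes the product of
all real matrices.

(3) **All-pairs shortest paths.** A circuit which computes all distances `dist w u v`, `u ≠ v`, in
the complete digraph on `X ⊕ Y` for all weights `w` with values in `{1, ..., 14}` has at least
`|X| (|X| - 1) (|Y| - 1)` minima.

(4) So for `3 m` vertices at least `2 m (2 m - 1) (m - 1)` minima are needed. -/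
theorem result :
    -- (1)
    (∀ (I K J : Type) [Fintype I] [Fintype K] [Fintype J]
        (g : (t : ℕ) → Gate (Pos I K J) t) (N : ℕ) (out : I × J → ℕ) (P : Finset (I × J)),
      (∀ (t : ℕ) (c : Fin t → ℝ), g t = .comb c → ∀ s, 0 ≤ c s) →
      (∀ (t : ℕ) (φ : (Pos I K J → ℝ) → ℝ), g t = .free φ →
        ConcaveOn ℝ {x | ∀ v, 1 ≤ x v ∧ x v ≤ 4} φ ∧
        ∃ S : Set (Pos I K J), DependsOn φ S ∧ ∀ (i : I) (j : J) (k k' : K), k ≠ k' →
          ¬ (Sum.inl (i, k) ∈ S ∧ Sum.inr (k, j) ∈ S ∧ Sum.inl (i, k') ∈ S ∧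
            Sum.inr (k', j) ∈ S)) →
      (∀ o ∈ P, out o < N) →
      (∀ x : Pos I K J → ℝ, (∀ v, x v = 1 ∨ x v = 2 ∨ x v = 3 ∨ x v = 4) →
        ∀ o ∈ P, val g x (out o) = ⨅ k : K, (x (.inl (o.1, k)) + x (.inr (k, o.2)))) →
      P.card * (Fintype.card K - 1) ≤ ((range N).filter (fun t => (g t).IsLow)).card) ∧
    -- (2)
    (∀ (I K J : Type) [Fintype I] [Fintype K] [Fintype J] [Nonempty I] [Nonempty K] [Nonempty J],
      ∃ (g : (t : ℕ) → Gate (Pos I K J) t) (N : ℕ) (out : I × J → ℕ),
        (∀ (t : ℕ) (c : Fin t → ℝ), g t ≠ .comb c) ∧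
        (∀ (t : ℕ) (φ : (Pos I K J → ℝ) → ℝ), g t = .free φ →
          ∃ (i : I) (j : J) (k : K), φ = fun x => x (.inl (i, k)) + x (.inr (k, j))) ∧
        (∀ o, out o < N) ∧
        (∀ (x : Pos I K J → ℝ) (o : I × J),
          val g x (out o) = ⨅ k : K, (x (.inl (o.1, k)) + x (.inr (k, o.2)))) ∧
        ((range N).filter (fun t => (g t).IsLow)).card ≤
          Fintype.card I * Fintype.card J * (Fintype.card K - 1)) ∧
    -- (3)
    (∀ (X Y : Type) [Fintype X] [Fintype Y]
        (g : (t : ℕ) → Gate ((X ⊕ Y) × (X ⊕ Y)) t) (N : ℕ) (out : (X ⊕ Y) → (X ⊕ Y) → ℕ),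
      (∀ (t : ℕ) (c : Fin t → ℝ), g t = .comb c → ∀ s, 0 ≤ c s) →
      (∀ (t : ℕ) (φ : ((X ⊕ Y) × (X ⊕ Y) → ℝ) → ℝ), g t = .free φ →
        ConcaveOn ℝ {w | ∀ e, 1 ≤ w e ∧ w e ≤ 14} φ ∧
        ∃ S : Set ((X ⊕ Y) × (X ⊕ Y)), NoDiamond S ∧ DependsOn φ S) →
      (∀ u v, out u v < N) →
      (∀ w : (X ⊕ Y) × (X ⊕ Y) → ℝ, (∀ e, ∃ n : ℕ, 1 ≤ n ∧ n ≤ 14 ∧ w e = n) →
        ∀ u v, u ≠ v → val g w (out u v) = dist w u v) →
      Fintype.card X * (Fintype.card X - 1) * (Fintype.card Y - 1) ≤
        ((range N).filter (fun t => (g t).IsLow)).card) ∧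
    -- (4)
    (∀ (m : ℕ) (g : (t : ℕ) → Gate ((Fin (2 * m) ⊕ Fin m) × (Fin (2 * m) ⊕ Fin m)) t) (N : ℕ)
        (out : (Fin (2 * m) ⊕ Fin m) → (Fin (2 * m) ⊕ Fin m) → ℕ),
      (∀ (t : ℕ) (c : Fin t → ℝ), g t = .comb c → ∀ s, 0 ≤ c s) →
      (∀ (t : ℕ) (φ : ((Fin (2 * m) ⊕ Fin m) × (Fin (2 * m) ⊕ Fin m) → ℝ) → ℝ), g t = .free φ →
        ConcaveOn ℝ {w | ∀ e, 1 ≤ w e ∧ w e ≤ 14} φ ∧
        ∃ S : Set ((Fin (2 * m) ⊕ Fin m) × (Fin (2 * m) ⊕ Fin m)), NoDiamond S ∧ DependsOn φ S) →
      (∀ u v, out u v < N) →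
      (∀ w : (Fin (2 * m) ⊕ Fin m) × (Fin (2 * m) ⊕ Fin m) → ℝ,
        (∀ e, ∃ n : ℕ, 1 ≤ n ∧ n ≤ 14 ∧ w e = n) →
        ∀ u v, u ≠ v → val g w (out u v) = dist w u v) →
      2 * m * (2 * m - 1) * (m - 1) ≤ ((range N).filter (fun t => (g t).IsLow)).card) := by
  refine ⟨?_, ?_, ?_, ?_⟩
  · intro I K J _ _ _ g N out P hcomb hfree hout hcorrect
    have hG : Good g (P : Set (I × J)) out 0 := by
      refine ⟨hcomb, fun t φ hφ => (hfree t φ hφ).1, fun x hx o ho => ?_⟩
      rw [add_zero]; exact hcorrect x hx o ho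
    have hL : LocalFree (P : Set (I × J)) g := by
      intro t φ hφ
      obtain ⟨_, S, hdep, hS⟩ := hfree t φ hφ
      exact ⟨S, fun o _ k k' hkk' => hS o.1 o.2 k k' hkk', hdep⟩
    exact hG.count hL P (fun o ho => ho) hout
  · intro I K J _ _ _ _ _ _
    obtain ⟨g, N, out, h1, h2, h3, h4, h5⟩ := exists_circuit (I := I) (K := K) (J := J)
    refine ⟨g, N, out, h1, ?_, h3, h4, h5⟩
    intro t φ hφ
    obtain ⟨o, k, h⟩ := h2 t φ hφ
    exact ⟨o.1, o.2, k, h⟩
  · intro X Y _ _ g N out hcomb hfree hout hcorrect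
    exact apsp_count g N out hcomb hfree hout hcorrect
  · intro m g N out hcomb hfree hout hcorrect
    have := apsp_count g N out hcomb hfree hout hcorrect
    simpa using this

end Pool.Agent.Results.MP_885423_lc.ConcavePreprocessing
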