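import Mathlib
import Pool.Agent.J4.H83.LE.FewRand
import Pool.Agent.J4.H83.LE.PGroup
import Pool.Agent.J4.H83.LE.Blocks

/-!
# Local encodings of the (min,+) product: the number of terms times the number of bits

A code of an entry of the (min,+) product of two matrices with inner dimension `n` in an abelian
group `G` is a sum `∑ l, F l A B` of `s` terms; term `l` may depend on `B` arbitrarily, but on `A`
only through the columns in a set `S l` of at most `w` columns (so a matrix of `s` columns is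
multiplied by a matrix of `s` rows, and each entry of the first one is computed from `w` entries).
If the code determines the entry, it needs at least `n ^ 2 / (n + w (w - 1) s)` bits
(`EntrywiseEncodings` is the case `w = 1`, where this is `n` for any number of terms). So, if
`s ≥ n / w`, the number `s` of terms times the number of bits of a code is at least about
`n ^ 2 / w ^ 2`, and the encoded matrix, with `n` rows, has about `n ^ 3 / w ^ 2` bits or more: for `w ≤ n ^ o(1)` it cannot be written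
down in truly subcubic time, even if matrix products over `G` were free. For `s = ⌈n / w⌉` terms
the bound `n / w` is sharp up to the logarithm of the entries. For more terms, up to
`n ^ (3 - ε)`, a polynomial number of bits is still needed for bounded `w`; and for codes over
`ZMod q` (`q` prime) `n / (w (q - 1))` coordinates are needed for any number of terms. With
a bounded error probability, about `n / (w sqrt s)` bits are needed.

* `IsMinPlus A B i j c`: `c` is the minimum over `k` of `A i k + B k j`.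
* `Bounded M A B`: all entries of `A` and `B` are integers between `0` and `M`.
* `LocalTerms S F`: `F l A B = F l A' B` if `A` and `A'` agree in the columns of the set `S l`.
* `Scales α β L M`: there are integers `v 0, ..., v L` with `v L ≤ M`, `v (l + 1) > α * v l + β`.
-/

set_option autoImplicit false

open Pool.Agent.N578.Enc Pool.Agent.J4.H83.LE

open Classical in
theorem Pool.Agent.Results.MP_885423_lc.FewTermEncodings.result :
    -- at least `n ^ 2 / (n + w (w - 1) s)` bits
    (∀ (G : Type) [AddCommGroup G] (m n p M r w : ℕ) (i : Fin m) (j : Fin p) (α β : ℝ),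
      1 ≤ α → 0 ≤ β →
      ∀ (ι : Type) [Fintype ι] (S : ι → Finset (Fin n))
      (F : ι → (Fin m → Fin n → ℕ) → (Fin n → Fin p → ℕ) → G), LocalTerms S F →
      0 < n → (∀ l, (S l).card ≤ w) → r * (n + Fintype.card ι * (w * (w - 1))) ≤ n ^ 2 →
      Scales α β r M →
      ∀ D : G → ℝ, (∀ A B, Bounded M A B → ∀ c, IsMinPlus A B i j c →
        (c : ℝ) ≤ D (∑ l, F l A B) ∧ D (∑ l, F l A B) ≤ α * c + β) →
      ∀ Q : Finset G, (∀ A B, Bounded M A B → ∑ l, F l A B ∈ Q) → 2 ^ r ≤ Q.card) ∧
    -- more terms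
    (∀ (G : Type) [AddCommGroup G] (m n p M r w : ℕ) (i : Fin m) (j : Fin p) (α β : ℝ),
      1 ≤ α → 0 ≤ β →
      ∀ (ι : Type) [Fintype ι] (S : ι → Finset (Fin n))
      (F : ι → (Fin m → Fin n → ℕ) → (Fin n → Fin p → ℕ) → G), LocalTerms S F →
      (∀ l, (S l).card ≤ w) → 2 * r ^ 3 ≤ n →
      Fintype.card ι * w.choose 3 * (2 * r ^ 3).choose 3 ≤ r ^ 3 * n.choose 3 →
      Scales α β (r ^ 3) M →
      ∀ D : G → ℝ, (∀ A B, Bounded M A B → ∀ c, IsMinPlus A B i j c →
        (c : ℝ) ≤ D (∑ l, F l A B) ∧ D (∑ l, F l A B) ≤ α * c + β) →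
      ∀ Q : Finset G, (∀ A B, Bounded M A B → ∑ l, F l A B ∈ Q) → 2 ^ r ≤ Q.card) ∧
    -- any number of terms, in a vector space over a prime field
    (∀ (q : ℕ) [Fact q.Prime] (d m n p M w : ℕ) (i : Fin m) (j : Fin p) (α β : ℝ),
      1 ≤ α → 0 ≤ β →
      ∀ (ι : Type) [Fintype ι] (S : ι → Finset (Fin n))
      (F : ι → (Fin m → Fin n → ℕ) → (Fin n → Fin p → ℕ) → (Fin d → ZMod q)), LocalTerms S F →
      (∀ l, (S l).card ≤ w) → Scales α β 1 M →
      ∀ D : (Fin d → ZMod q) → ℝ, (∀ A B, Bounded M A B → ∀ c, IsMinPlus A B i j c →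
        (c : ℝ) ≤ D (∑ l, F l A B) ∧ D (∑ l, F l A B) ≤ α * c + β) →
      n ≤ w * d * (q - 1)) ∧
    -- error probability at most `1 / 4`
    (∀ (G : Type) [AddCommGroup G] (m n p M k w : ℕ) (i : Fin m) (j : Fin p) (α β : ℝ),
      1 ≤ α → 0 ≤ β →
      ∀ (Ω : Type) [Fintype Ω] (P : Ω → ℝ), (∀ r, 0 ≤ P r) → ∑ r, P r = 1 →
      ∀ (ι : Type) [Fintype ι] (S : Ω → ι → Finset (Fin n))
      (F : Ω → ι → (Fin m → Fin n → ℕ) → (Fin n → Fin p → ℕ) → G),
      (∀ r, LocalTerms (S r) (F r)) →
      (∀ r l, (S r l).card ≤ w) → k ≤ n →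
      12 * (Fintype.card ι * w.choose 2) * k.choose 2 ≤ n.choose 2 → Scales α β k M →
      ∀ D : Ω → G → ℝ, (∀ A B, Bounded M A B → ∀ c, IsMinPlus A B i j c →
        ∑ r, (if (c : ℝ) ≤ D r (∑ l, F r l A B) ∧ D r (∑ l, F r l A B) ≤ α * c + β then 0
          else P r) ≤ 1 / 4) →
      ∀ (q : ℕ) (Q : Ω → Finset G), (∀ r, (Q r).card ≤ q) →
      (∀ r A B, Bounded M A B → ∑ l, F r l A B ∈ Q r) → 2 ^ k ≤ (5 * q) ^ 50) ∧
    -- an exact encoding with `⌈n / w⌉` terms and `(2 M + 1) ^ ⌈n / w⌉` codes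
    (∀ (m n p w M : ℕ), 0 < w → ∀ (i : Fin m) (j : Fin p),
      ∃ (S : Fin ((n + w - 1) / w) → Finset (Fin n))
        (F : Fin ((n + w - 1) / w) → (Fin m → Fin n → ℕ) → (Fin n → Fin p → ℕ) →
          (Fin ((n + w - 1) / w) → ZMod (2 * M + 1)))
        (D : (Fin ((n + w - 1) / w) → ZMod (2 * M + 1)) → ℝ),
        LocalTerms S F ∧ (∀ l, (S l).card ≤ w) ∧
        ∀ A B, Bounded M A B → ∀ c, IsMinPlus A B i j c → D (∑ l, F l A B) = c) := by
  refine ⟨?_, ?_, ?_, ?_, ?_⟩
  · intro G _ m n p M r w i j α β hα hβ ι _ S F hF hn hw hr hsc D hD Q hQ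
    exact few_terms hF hα hβ D hD hn hw hr hsc Q hQ
  · intro G _ m n p M r w i j α β hα hβ ι _ S F hF hw hrn hr hsc D hD Q hQ
    exact few_terms3 hF hα hβ D hD hw hrn hr hsc Q hQ
  · intro q _ d m n p M w i j α β hα hβ ι _ S F hF hw hsc D hD
    exact pgroup_encoding q hF hα hβ D hD hw hsc
  · intro G _ m n p M k w i j α β hα hβ Ω _ P hP0 hP1 ι _ S F hF hw hk hc hsc D hD q Q hq hQ
    exact few_rand P hP0 hP1 hF hα hβ D hD hw hk hc hsc q Q hq hQ
  · intro m n p w M hw i j
    exact block_encoding m n p w M hw i j
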