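import Mathlib
import Pool.Agent.J4.H34.RH.Main
import Pool.Agent.J4.H34.RH.Upper

/-!
# Shortest paths: arithmetic and equality tests do not help to compare paths

A directed graph has three layers of `n` vertices and integral weights in `{1, …, N}`: `a i k` on the
edge from `i` (first layer) to `k` (second layer), `b k j` on the edge from `k` to `j` (third layer),
and `c i j` on the edge from `i` to `j`. The definitions are in `Pool/Agent/J4/H34/RH/Model.lean`.

A random algorithm (`Prog`, `Solves`) has access to the weights only by the following operations.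

* `hash`: it computes the value of a rational function of all weights over a field `K i`, where
  numerator and denominator are polynomials of degree at most `Δ` with arbitrary coefficients, and it
  sees which of the values computed before are equal to the new value (a hash table).
* `path`: it compares the lengths of two paths with the same ends (an edge is a path, too).
* `test`: it asks for the sign of a signed sum of `κ` products of at most `d` weights which does not
  vanish for all weights given by potentials (i.e. for all weights for which all paths with the same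
  ends have the same length). For instance, it compares two weights, or the lengths of two paths with
  different ends.
* `lead`: it asks for the leading digits `⌊w e / D⌋` of all weights.

All other computations are free: the algorithm may depend on the answers in any way.

Theorem. For all `κ`, `d`, `a` there is a `c` such that for `n ≥ 2`, `D ≥ n ^ c` and `N ≥ n ^ c D`:
if the fields have characteristic zero or at least `n ^ c` and `Δ = n ^ a`, then a random algorithm
which decides with probability `2 / 3` whether some edge is longer than a path with the same ends, or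
which finds shortest paths between all pairs with probability `2 / 3`, and which hashes at most
`n ^ a` values on the average for all weights, makes at least `n ^ 3 / 100` comparisons of paths on
the average for some weights in `{1, …, N}`; the operations `test` and `lead` are free. Conversely
`n ^ 3` comparisons of paths suffice, without any other operation.

So arithmetic operations (with division) and tests of equality of their results, even a polynomial
number of them, do not help an algorithm which orders the lengths of paths with the same ends only by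
comparing them.

Proof. The weights are `D * pot x e + 2 q * mid e + ν e`. Here `x` is a potential for which no signed
sum of the operations `test` vanishes (counting); `ν` is a random noise in `{0, …, q - 1}`; the middle
digits `mid` have the property that the order of all paths with the same ends is determined by their
vertices in the second layer, with the edges first. For a triple `(i, k, j)` they can be changed at
the edges of `i` and `j` such that the path `(i, k, j)` becomes shorter than the edge from `i` to `j`
and no comparison of other paths changes (an adversary similar to that of Karger, Koller and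
Phillips). By the lemma of Schwartz and Zippel the algorithm sees, with high probability, only those
equalities which hold between the rational functions. So it follows for both inputs the same fixed
branch, unless one of its at most `n ^ 3 / 10` comparisons takes part in the path `(i, k, j)`.
-/

set_option autoImplicit false

open MeasureTheory
open scoped ENNReal

namespace Pool.Agent.Results.MP_885423_lc.HashAndPaths

open Pool.Agent.J4.H34.RH

/-- bounded by a power -/
def PB (f : ℕ → ℕ) : Prop := ∃ c, ∀ n, 2 ≤ n → f n ≤ n ^ c

lemma PB.const (C : ℕ) : PB fun _ => C :=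
  ⟨C, fun _ hn => (Nat.lt_two_pow_self).le.trans (Nat.pow_le_pow_left hn C)⟩

lemma PB.id : PB fun n => n := ⟨1, fun n _ => by simp⟩

lemma PB.mul {f g : ℕ → ℕ} (hf : PB f) (hg : PB g) : PB fun n => f n * g n := by
  obtain ⟨a, ha⟩ := hf
  obtain ⟨b, hb⟩ := hg
  refine ⟨a + b, fun n hn => ?_⟩
  rw [pow_add]
  exact Nat.mul_le_mul (ha n hn) (hb n hn)

lemma PB.pow {f : ℕ → ℕ} (hf : PB f) (k : ℕ) : PB fun n => f n ^ k := by
  obtain ⟨a, ha⟩ := hf
  refine ⟨a * k, fun n hn => ?_⟩
  rw [pow_mul]
  exact Nat.pow_le_pow_left (ha n hn) k

lemma PB.add {f g : ℕ → ℕ} (hf : PB f) (hg : PB g) : PB fun n => f n + g n := by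
  obtain ⟨a, ha⟩ := hf
  obtain ⟨b, hb⟩ := hg
  refine ⟨a + b + 1, fun n hn => ?_⟩
  have h1 : f n ≤ n ^ (a + b) := (ha n hn).trans (Nat.pow_le_pow_right (by omega) (by omega))
  have h2 : g n ≤ n ^ (a + b) := (hb n hn).trans (Nat.pow_le_pow_right (by omega) (by omega))
  rw [pow_succ]
  calc f n + g n ≤ n ^ (a + b) + n ^ (a + b) := add_le_add h1 h2
    _ = n ^ (a + b) * 2 := by ring
    _ ≤ n ^ (a + b) * n := Nat.mul_le_mul_left _ hn

/-- **Main theorem.** -/
theorem result :
    (∀ κ d a : ℕ, ∃ c : ℕ, ∀ n D N : ℕ, 2 ≤ n → n ^ c ≤ D → n ^ c * D ≤ N →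
      ∀ (ι : Type) (K : ι → Type) [∀ i, Field (K i)],
        (∀ i, ∀ m : ℕ, 0 < m → m < n ^ c → (m : K i) ≠ 0) →
      ∀ (Ω : Type) [MeasurableSpace Ω] (μ : Measure Ω) [IsProbabilityMeasure μ] (T : ℝ),
        (∀ p : Ω → Prog K n κ d Bool,
          Solves (n ^ a) D N (fun w b => (b = true ↔ Shortcut w)) ((n ^ a : ℕ) : ℝ) T μ p →
            (n : ℝ) ^ 3 ≤ 100 * T) ∧
        (∀ p : Ω → Prog K n κ d (Fin n → Fin n → Option (Fin n)),
          Solves (n ^ a) D N Shortest ((n ^ a : ℕ) : ℝ) T μ p → (n : ℝ) ^ 3 ≤ 100 * T)) ∧
    (∀ (ι : Type) (K : ι → Type) [∀ i, Field (K i)] (n κ d : ℕ),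
      (∃ p : Prog K n κ d Bool, p.Uses 0 ∧ ∀ (D : ℕ) (w : Edge n → ℤ), p.hashes D w = 0 ∧
        p.paths D w = n ^ 3 ∧ (p.output D w = true ↔ Shortcut w)) ∧
      ∃ p : Prog K n κ d (Fin n → Fin n → Option (Fin n)), p.Uses 0 ∧
        ∀ (D : ℕ) (w : Edge n → ℤ), p.hashes D w = 0 ∧ p.paths D w = n ^ 3 ∧
          Shortest w (p.output D w)) := by
  refine ⟨fun κ d a => ?_, fun ι K _ n κ d => ⟨upper_decision K n κ d, upper_search K n κ d⟩⟩
  set Rf : ℕ → ℕ := fun n => d * ((d + 1) * (3 * (3 * n ^ 2) ^ d) ^ κ) + 1 with hRf
  set qf : ℕ → ℕ := fun n => 1600000 * n ^ a * (n ^ a) ^ 2 with hqf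
  set Df : ℕ → ℕ := fun n => (κ * d * (5 * Rf n + 1) ^ d + 1) * (2 * qf n * (n ^ 2 + n + 3))
    with hDf
  have hR : PB Rf := (((PB.const d).mul ((PB.const (d + 1)).mul (((PB.const 3).mul
    (((PB.const 3).mul (PB.id.pow 2)).pow d)).pow κ))).add (PB.const 1))
  have hq : PB qf := ((PB.const 1600000).mul (PB.id.pow a)).mul ((PB.id.pow a).pow 2)
  have hD : PB Df := (((((PB.const κ).mul (PB.const d)).mul ((((PB.const 5).mul hR).add
    (PB.const 1)).pow d)).add (PB.const 1))).mul (((PB.const 2).mul hq).mul
    (((PB.id.pow 2).add PB.id).add (PB.const 3)))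
  obtain ⟨c, hc⟩ := (hq.add hD).add ((PB.const 6).mul hR)
  refine ⟨c, fun n D N hn hD1 hN ι K _ hK Ω _ μ _ T => ?_⟩
  have hc' : qf n + Df n + 6 * Rf n ≤ n ^ c := hc n hn
  have c1 : qf n ≤ n ^ c := by omega
  have c2 : Df n ≤ n ^ c := by omega
  have c3 : 6 * Rf n ≤ n ^ c := by omega
  obtain ⟨x, hx1, hx2⟩ := exists_pot (κ := κ) (d := d) (R := Rf n) (show 1 ≤ n by omega)
    (Nat.lt_succ_self _)
  have hpar : Par n κ d D N (qf n) (Rf n) x := by
    refine ⟨hx1, hx2, ?_, Nat.succ_pos _, c2.trans hD1, ?_⟩
    · have : 0 < n := by omega
      positivity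
    · exact (Nat.mul_le_mul_right _ c3).trans hN
  have hBig : Big (qf n) K := fun i m h1 h2 => hK i m h1 (h2.trans_le c1)
  constructor
  · intro p hp
    apply cubic hpar (by omega) hBig le_rfl _ _ μ p hp
    intro w w' h1 h2 b h3 h4
    have h5 : b = true := h4.2 h2
    obtain ⟨i, j, k, h6⟩ := h3.1 h5
    exact absurd (h1 i j k) (not_lt.2 h6.le)
  · intro p hp
    apply cubic hpar (by omega) hBig le_rfl _ _ μ p hp
    rintro w w' h1 ⟨i, j, k, h2⟩ σ h3 h4
    have h5 : σ i j = none := by
      cases ho : σ i j with
      | none => rfl
      | some k' =>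
        have h6 := h3 i j none
        rw [ho] at h6
        exact absurd (h1 i j k') (not_lt.2 h6)
    have h6 := h4 i j (some k)
    rw [h5] at h6
    exact absurd h2 (not_lt.2 h6)

end Pool.Agent.Results.MP_885423_lc.HashAndPaths
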