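import Mathlib
import Pool.Agent.J4.H83.LE.App

/-!
# Pair-local encodings cannot reduce the (min,+) product to cheap ring products

`EntrywiseEncodings` shows that a code of an entry of the (min,+) product of two matrices which is
a sum (in a group) of one term per column `k` of the first matrix needs `n` bits. Here the terms
may read two columns (and there may be any number of terms): a code in an abelian group of the
form `∑ l, F l A B`, where `F l` depends on `B` arbitrarily, but on `A` only through two of its
columns, which determines an entry of the product (exactly or approximately), takes at least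
`2 ^ r` values if `r ^ 3 ≤ n`. So it needs `n ^ (1/3)` bits, although there are `n ^ 2 / 2` pairs
of columns. It is enough that every term reads at most two columns of a set `K` of columns with
`r ^ 3 ≤ |K|`, for example two blocks of columns out of `r ^ 3` blocks.

The core is a statement on sets: if `f T` is a sum of terms which depend on the trace of the set
`T` on pairs, and `f T` determines the minimum of `T`, for all sets of integers below `n`,
then `f` has at least `2 ^ r` values if `r ^ 3 ≤ n`. (By a theorem of Beigel and Tarui there are such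
`f` with a polylogarithmic number of bits if traces on sets of polylogarithmic size are allowed.)

* `IsMinPlus A B i j c`: `c` is the minimum over `k` of `A i k + B k j`.
* `Bounded M A B`: all entries of `A` and `B` are integers between `0` and `M`.
* `LocalTerms S F`: `F l A B = F l A' B` if `A` and `A'` agree in the columns of the set `S l`.
* `Scales α β L M`: there are integers `v 0, ..., v L` with `v L ≤ M`, `v (l + 1) > α * v l + β`.
-/

set_option autoImplicit false

open Pool.Agent.N578.Enc Pool.Agent.J4.H83.LE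

theorem Pool.Agent.Results.MP_885423_lc.PairLocalEncodings.result :
    -- the statement on sets
    (∀ (G : Type) [AddCommGroup G] (n r : ℕ) (ι : Type) [Fintype ι] (S : ι → Finset (Fin n))
      (φ : ι → Finset (Fin n) → G), (∀ l, (S l).card ≤ 2) →
      (∀ X Y : Finset (Fin n), ∑ l, φ l (X ∩ S l) = ∑ l, φ l (Y ∩ S l) → X.min = Y.min) →
      r ^ 3 ≤ n → ∀ Q : Finset G, (∀ X : Finset (Fin n), ∑ l, φ l (X ∩ S l) ∈ Q) →
      2 ^ r ≤ Q.card) ∧
    -- exact codes with pair-local terms
    (∀ (G : Type) [AddCommGroup G] (m n p M r : ℕ) (i : Fin m) (j : Fin p)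
      (ι : Type) [Fintype ι] (S : ι → Finset (Fin n))
      (F : ι → (Fin m → Fin n → ℕ) → (Fin n → Fin p → ℕ) → G),
      LocalTerms S F → (∀ l, (S l).card ≤ 2) → n ≤ M → r ^ 3 ≤ n →
      ∀ D : G → ℝ, (∀ A B, Bounded M A B → ∀ c, IsMinPlus A B i j c →
        D (∑ l, F l A B) = c) →
      ∀ Q : Finset G, (∀ A B, Bounded M A B → ∑ l, F l A B ∈ Q) → 2 ^ r ≤ Q.card) ∧
    -- approximate codes with terms which read at most two columns of a set of columns
    (∀ (G : Type) [AddCommGroup G] (m n p M r : ℕ) (i : Fin m) (j : Fin p) (α β : ℝ),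
      1 ≤ α → 0 ≤ β →
      ∀ (ι : Type) [Fintype ι] (S : ι → Finset (Fin n))
      (F : ι → (Fin m → Fin n → ℕ) → (Fin n → Fin p → ℕ) → G), LocalTerms S F →
      ∀ K : Finset (Fin n), (∀ l, (S l ∩ K).card ≤ 2) → Scales α β K.card M → r ^ 3 ≤ K.card →
      ∀ D : G → ℝ, (∀ A B, Bounded M A B → ∀ c, IsMinPlus A B i j c →
        (c : ℝ) ≤ D (∑ l, F l A B) ∧ D (∑ l, F l A B) ≤ α * c + β) →
      ∀ Q : Finset G, (∀ A B, Bounded M A B → ∑ l, F l A B ∈ Q) → 2 ^ r ≤ Q.card) ∧
    -- the decision version: is some `A i k + B k j` smaller than `M`?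
    (∀ (X Y Z : Type) [AddCommGroup X] [AddCommGroup Y] [AddCommGroup Z]
      (m n p M r : ℕ) (i : Fin m) (j : Fin p) (π : X →+ Y →+ Z)
      (ι : Type) [Fintype ι] (S : ι → Finset (Fin n)) (f : ι → (Fin m → Fin n → ℕ) → X)
      (g : (Fin n → Fin p → ℕ) → Y),
      (∀ l A A', (∀ i, ∀ k ∈ S l, A i k = A' i k) → f l A = f l A') →
      ∀ K : Finset (Fin n), (∀ l, (S l ∩ K).card ≤ 2) → K.card ≤ M → r ^ 3 ≤ K.card →
      ∀ D : Z → Prop,
      (∀ A B, Bounded M A B → ((∃ k, A i k + B k j < M) ↔ D (π (∑ l, f l A) (g B)))) →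
      ∀ Q : Finset X, (∀ A : Fin m → Fin n → ℕ, (∀ i k, A i k ≤ M) → ∑ l, f l A ∈ Q) →
      2 ^ r ≤ Q.card) := by
  refine ⟨?_, ?_, ?_, ?_⟩
  · intro G _ n r ι _ S φ hS hd hr Q hQ
    exact pair_sets S φ hS hd r hr Q hQ
  · intro G _ m n p M r i j ι _ S F hF hS hM hr D hD Q hQ
    refine pair_encoding hF (M := M) (r := r) (i := i) (j := j) (α := 1) (β := 0) le_rfl le_rfl D
      ?_ Finset.univ ?_ ?_ (by simpa using hr) Q hQ
    · intro A B hAB c hc
      rw [hD A B hAB c hc]
      constructor <;> simp
    · intro l
      rw [Finset.inter_univ]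
      exact hS l
    · refine ⟨id, fun l _ => by simp, ?_⟩
      simpa using hM
  · intro G _ m n p M r i j α β hα hβ ι _ S F hF K hK hsc hr D hD Q hQ
    exact pair_encoding hF hα hβ D hD K hK hsc hr Q hQ
  · intro X Y Z _ _ _ m n p M r i j π ι _ S f g hf K hK hM hr D hD Q hQ
    exact pair_decision hf π g D hD K hK hM hr Q hQ
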